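import Pool.Agent.Y503.RB.Stm

/-!
Integration in coordinates.
-/

set_option autoImplicit false

namespace Pool.Agent.Y919.RB

open scoped ContDiff RealInnerProductSpace ENNReal
open MeasureTheory Set Pool.Agent.Y503.RB

/-- The coordinates. -/
noncomputable def coE : E4 ≃ᵐ ℝ × (ℝ × ℂ) :=
  ((MeasurableEquiv.toLp 2 (Fin 4 → ℝ)).symm.trans
    (MeasurableEquiv.piFinSuccAbove (fun _ => ℝ) (Fin.last 3))).trans
    (MeasurableEquiv.prodCongr (MeasurableEquiv.refl ℝ)
      ((MeasurableEquiv.piFinSuccAbove (fun _ => ℝ) (Fin.last 2)).trans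
        (MeasurableEquiv.prodCongr (MeasurableEquiv.refl ℝ) Complex.measurableEquivPi.symm)))

theorem coE_apply (x : E4) : coE x = (x 3, (x 2, zc x)) := by
  have h1 : coE x = (x 3, (x 2, Complex.measurableEquivPi.symm ![x 0, x 1])) := by
    unfold coE
    simp only [MeasurableEquiv.trans_apply]
    refine Prod.ext rfl (Prod.ext rfl ?_)
    change Complex.measurableEquivPi.symm _ = Complex.measurableEquivPi.symm _
    congr 1
    funext i
    fin_cases i <;> rfl
  rw [h1, Complex.measurableEquivPi_symm_apply]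
  refine Prod.ext rfl (Prod.ext rfl ?_)
  simp [zc, Complex.ext_iff]

theorem coE_mp : MeasurePreserving coE (volume : Measure E4) volume := by
  have h0 : MeasurePreserving (MeasurableEquiv.toLp 2 (Fin 4 → ℝ)).symm :=
    EuclideanSpace.volume_preserving_symm_measurableEquiv_toLp (Fin 4)
  have h1 := volume_preserving_piFinSuccAbove (fun _ : Fin 4 => ℝ) (Fin.last 3)
  have h2 := volume_preserving_piFinSuccAbove (fun _ : Fin 3 => ℝ) (Fin.last 2)
  have h3 := Complex.volume_preserving_equiv_pi.symm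
  have h4 : MeasurePreserving (Prod.map (id : ℝ → ℝ) Complex.measurableEquivPi.symm)
      (volume.prod volume) (volume.prod volume) := (MeasurePreserving.id volume).prod h3
  have h5 := h4.comp h2
  have h6 := (MeasurePreserving.id (volume : Measure ℝ)).prod h5
  exact h6.comp (h1.comp h0)

theorem int_cube : ∫⁻ r in Ioo (0 : ℝ) 1, ENNReal.ofReal (r ^ 3) = ENNReal.ofReal (1 / 4) := by
  rw [← ofReal_integral_eq_lintegral_ofReal]
  · congr 1
    rw [← integral_Ioc_eq_integral_Ioo, ← intervalIntegral.integral_of_le zero_le_one, integral_pow]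
    norm_num
  · have h : IntegrableOn (fun r : ℝ => r ^ 3) (Icc 0 1) :=
      (continuous_pow 3).continuousOn.integrableOn_Icc
    exact h.mono_set Ioo_subset_Icc_self
  · rw [Filter.EventuallyLE, ae_restrict_iff' measurableSet_Ioo]
    exact Filter.Eventually.of_forall fun r hr => pow_nonneg hr.1.le 3

theorem FUB : St_FUB := by
  intro U f hU hf
  have hset : {x : E4 | zc x ∈ U ∧ x 2 ∈ Ico 0 (2 * Real.pi) ∧ x 3 ∈ Ioo 0 1} =
      coE ⁻¹' (Ioo 0 1 ×ˢ (Ico 0 (2 * Real.pi) ×ˢ U)) := by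
    ext x
    simp only [mem_ofPred_eq, mem_preimage, coE_apply, mem_prod]
    tauto
  have h1 : ∀ x : E4, ENNReal.ofReal (x 3 ^ 3) * f (x 2, zc x) =
      (fun q : ℝ × (ℝ × ℂ) => ENNReal.ofReal (q.1 ^ 3) * f q.2) (coE x) := by
    intro x
    rw [coE_apply]
  rw [hset]
  simp_rw [h1]
  rw [coE_mp.setLIntegral_comp_preimage_emb coE.measurableEmbedding
    (fun q : ℝ × (ℝ × ℂ) => ENNReal.ofReal (q.1 ^ 3) * f q.2)]
  have h2 : (volume : Measure (ℝ × (ℝ × ℂ))).restrict (Ioo 0 1 ×ˢ (Ico 0 (2 * Real.pi) ×ˢ U)) =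
      (volume.restrict (Ioo (0 : ℝ) 1)).prod (volume.restrict (Ico 0 (2 * Real.pi) ×ˢ U)) := by
    rw [Measure.prod_restrict]; rfl
  rw [h2, lintegral_prod_mul (f := fun r : ℝ => ENNReal.ofReal (r ^ 3)) (g := f) _ hf, int_cube]
  · congr 1
    have h3 : (volume : Measure (ℝ × ℂ)).restrict (Ico 0 (2 * Real.pi) ×ˢ U) =
        (volume.restrict (Ico 0 (2 * Real.pi))).prod (volume.restrict U) := by
      rw [Measure.prod_restrict]; rfl
    rw [h3] at hf ⊢
    rw [lintegral_prod_symm _ hf]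
  · exact ((measurable_id.pow_const 3).ennreal_ofReal).aemeasurable

end Pool.Agent.Y919.RB
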